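import Mathlib

/-!
# FS, block U: quantitative Beurling gap inequality (spec of helper81, page FS_page_helper52)

Q : continuous, compact support; q t = int Q(s) exp(i s t) ds; C = CQ Q the Cauchy transform.
All rows are independent; a row may use the statements of other rows as hypotheses
(write the theorem as `theorem U2_proof (h1 : U1_stmt) : U2_stmt`).
-/

set_option autoImplicit false

namespace Pool.Agent.helper81.FS

open MeasureTheory Set Complex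

/-- Cauchy transform. -/
noncomputable def CQ (Q : ℝ → ℂ) (z : ℂ) : ℂ := ∫ s : ℝ, Q s / ((s : ℂ) - z)

/-- q is the Fourier transform of Q. -/
def IsFT (Q q : ℝ → ℂ) : Prop := ∀ t : ℝ, q t = ∫ s : ℝ, Q s * cexp (I * s * t)

/-- U1 (short-medium, Fubini). For Im z > 0 the function t -> exp(i t z) decays like exp(-t Im z);
int_0^inf exp(i t (z - s)) dt = i/(z - s), so I * int_0^inf exp(itz) int Q(s) exp(-ist) ds dt
= int Q(s)/(s - z) ds (integral_integral_swap, Q integrable). For Im z < 0 the same with t -> -t. -/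
def U1_stmt : Prop := ∀ (Q q : ℝ → ℂ), Continuous Q → HasCompactSupport Q → IsFT Q q → ∀ z : ℂ,
  (0 < z.im → CQ Q z = I * ∫ t in Ioi (0:ℝ), cexp (I * t * z) * q (-t)) ∧
  (z.im < 0 → CQ Q z = -I * ∫ t in Ioi (0:ℝ), cexp (-(I * t * z)) * q t)

/-- U2 (short; uses U1). Let y = |Im z|. By U1 the norm is at most int_(t>0) exp(-t y) |q(-+t)| dt;
split at t = c': the part t <= c' is at most int_(Icc (-c') c') |q| <= exp(c' L) exp(-c' y) int_Icc |q|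
(y <= L), the part t > c' at most exp(-c' y) int |q|. -/
def U2_stmt : Prop := ∀ (Q q : ℝ → ℂ), Continuous Q → HasCompactSupport Q → Integrable q →
  IsFT Q q → ∀ (c' L : ℝ), 0 < c' → ∀ z : ℂ, z.im ≠ 0 → |z.im| ≤ L →
  ‖CQ Q z‖ ≤ ((∫ t, ‖q t‖) + Real.exp (c' * L) * ∫ t in Icc (-c') c', ‖q t‖)
    * Real.exp (-(c' * |z.im|))

/-- U3 (short-medium). Near z0 all points s of the support of Q have distance >= delta > 0 from z:
hasDerivAt_integral_of_dominated_loc_of_deriv_le with the bound |Q s| / delta^2. -/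
def U3_stmt : Prop := ∀ (Q : ℝ → ℂ), Continuous Q → HasCompactSupport Q → ∀ z0 : ℂ,
  (z0.im ≠ 0 ∨ ∃ R > 0, ∀ s : ℝ, |s - z0.re| < R → Q s = 0) → DifferentiableAt ℂ (CQ Q) z0

/-- U4 (short-medium, maximum principle). By continuity the bound holds also for Im z = 0 if
|z.re - y| < 3 r (approach z by z + i e). h(w) = C(z0+w) C(z0+iw) C(z0-w) C(z0-iw) is differentiable
on a neighbourhood of the closed disc |w| <= r (real parts stay within 2r of y); for w = a + ib,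
|w| = r, e = Im z0 the imaginary parts are e+b, e+a, e-b, e-a, and
|e+b| + |e-b| >= 2|b|, |e+a| + |e-a| >= 2|a|, |a| + |b| >= r: |h(w)| <= A^4 exp(-2c'r).
Maximum principle: |C(z0)|^4 = |h(0)| <= A^4 exp(-2 c' r). -/
def U4_stmt : Prop := ∀ (C : ℂ → ℂ) (A c' L r y : ℝ), 0 ≤ A → 0 < c' → 0 < r →
  (∀ z : ℂ, (z.im ≠ 0 ∨ |z.re - y| < 3 * r) → DifferentiableAt ℂ C z) →
  (∀ z : ℂ, z.im ≠ 0 → |z.im| ≤ L → ‖C z‖ ≤ A * Real.exp (-(c' * |z.im|))) →
  ∀ z0 : ℂ, |z0.re - y| ≤ r → 0 ≤ z0.im → z0.im + r ≤ L →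
    ‖C z0‖ ≤ A * Real.exp (-(c' * r / 2))

/-- W a b: Re W is the harmonic measure of [a,b] in the upper half plane. For Im z > 0 both
b - z and a - z have negative imaginary part (principal log is analytic there). -/
noncomputable def W (a b : ℝ) (z : ℂ) : ℂ :=
  (Complex.log ((b : ℂ) - z) - Complex.log ((a : ℂ) - z)) / (Real.pi * I)

/-- U5 (short-medium). Re W a b z = (arg(b - z) - arg(a - z))/pi, and for z = x + iy, y > 0:
arg(s - z) = arctan((s - x)/y) - pi/2, so Re W = (1/pi) (arctan((b-x)/y) - arctan((a-x)/y))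
= (1/pi) int_a^b y/((s-x)^2 + y^2) ds. The four bounds: the integrand is between 0 and 1/y;
at most y/d^2 if |x - s| >= d on [a,b]; at least 1/(1+b^2) for z = I, 0 <= a. -/
def U5_stmt : Prop := ∀ a b : ℝ, a < b →
  (∀ z : ℂ, 0 < z.im → DifferentiableAt ℂ (W a b) z ∧ 0 ≤ (W a b z).re ∧ (W a b z).re ≤ 1 ∧
    (W a b z).re ≤ (b - a) / (Real.pi * z.im)) ∧
  (∀ (z : ℂ) (d : ℝ), 0 < z.im → 0 < d → (∀ s ∈ Icc a b, d ≤ |z.re - s|) →
    (W a b z).re ≤ z.im * (b - a) / (Real.pi * d ^ 2)) ∧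
  (0 ≤ a → (b - a) / (Real.pi * (1 + b ^ 2)) ≤ (W a b I).re)

/-- U6A (short-medium; uses U5). Phragmen-Lindelof: F(z) = C(z) exp(sum_i w_i W_i(z)) is
differentiable on Im z > 0 and bounded (by A exp(sum w_i)) on 0 < Im z <= L. For 0 < eta < 1 apply
PhragmenLindelof.horizontal_strip on eta <= Im z <= L: |F| <= A exp(|kap| eta) on both lines.
So |F(I)| <= A exp(|kap| eta), let eta -> 0. -/
def U6A_stmt : Prop := ∀ (C : ℂ → ℂ) (A κ L : ℝ) (s : Finset ℕ) (w a b : ℕ → ℝ), 0 ≤ A → 1 < L →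
  (∀ i ∈ s, 0 ≤ w i ∧ a i < b i) →
  (∀ z : ℂ, 0 < z.im → DifferentiableAt ℂ C z) →
  (∀ z : ℂ, 0 < z.im → z.im ≤ L → ‖C z‖ ≤ A) →
  (∀ z : ℂ, 0 < z.im → z.im ≤ 1 →
    ‖C z‖ ≤ A * Real.exp (κ * z.im - ∑ i ∈ s, w i * (W (a i) (b i) z).re)) →
  (∀ z : ℂ, z.im = L → ‖C z‖ ≤ A * Real.exp (-∑ i ∈ s, w i * (W (a i) (b i) z).re)) →
  ‖C I‖ ≤ A * Real.exp (-∑ i ∈ s, w i * (W (a i) (b i) I).re)

/-- radius of the i-th gain region -/
noncomputable def rr (g : ℝ) (i : ℕ) : ℝ := g * 2 ^ i / 3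

/-- the sum of the weighted harmonic measures of J_i = [y_i - r_i/2, y_i + r_i/2] -/
noncomputable def SW (g c' : ℝ) (i1 n : ℕ) (y : ℕ → ℝ) (z : ℂ) : ℝ :=
  ∑ i ∈ Finset.Ico i1 (i1 + n),
    c' * rr g i / 4 * (W (y i - rr g i / 2) (y i + rr g i / 2) z).re

/-- U6B (short-medium; uses U5). Write r_i = rr g i <= 2^i/6, so the gain regions |x - y_i| <= r_i lie in
[(5/6) 2^i, (13/6) 2^i]: a point x lies in at most two of them, with consecutive indices m-1, m.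
First bound: terms with x outside the i-th region: distance of x to J_i is >= r_i/2, so
(c' r_i/4) Re W <= (c' r_i/4) eta r_i/(pi (r_i/2)^2) = c' eta/pi <= c' eta: together <= c' n eta.
If x lies in no region use |C| <= A. If m is the largest index of a region containing x: the (at most
two) inner terms are <= c'(r_m + r_(m-1))/4 <= c' r_m/2 and |C| <= A exp(-c' r_m/2).
Second: Re W <= r_i/(pi L), sum c' r_i^2/(4 pi L) <= c' L, |C| <= A exp(-c' L).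
Third: b = y_i + r_i/2 <= (25/12) 2^i, 1 + b^2 <= 6 * 4^i, so each term is
>= (c' r_i/4) r_i/(6 pi 4^i) = c' g^2/(216 pi) >= c' g^2/700. -/
def U6B_stmt : Prop := ∀ (g c' A : ℝ) (i1 n : ℕ) (C : ℂ → ℂ) (y : ℕ → ℝ), 0 < g → g ≤ 1/2 →
  0 < c' → 0 ≤ A →
  (∀ z : ℂ, 0 < z.im → z.im ≤ 2 ^ (i1 + n + 3) → ‖C z‖ ≤ A * Real.exp (-(c' * z.im))) →
  (∀ i, i1 ≤ i → i < i1 + n → y i ∈ Icc ((2:ℝ) ^ i) (2 ^ (i + 1))) →
  (∀ i, i1 ≤ i → i < i1 + n → ∀ z : ℂ, |z.re - y i| ≤ rr g i → 0 < z.im → z.im ≤ 1 →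
    ‖C z‖ ≤ A * Real.exp (-(c' * rr g i / 2))) →
  (∀ z : ℂ, 0 < z.im → z.im ≤ 1 →
    ‖C z‖ ≤ A * Real.exp (c' * n * z.im - SW g c' i1 n y z)) ∧
  (∀ z : ℂ, z.im = 2 ^ (i1 + n + 3) → ‖C z‖ ≤ A * Real.exp (-SW g c' i1 n y z)) ∧
  g ^ 2 / 700 * c' * n ≤ SW g c' i1 n y I

/-- U7 (short; assembly; uses U1, U2, U3, U4, U6A, U6B), the gap inequality with c0 = g^2/700.
A = int |q| + exp(c' L) int_Icc |q|, L = 2^(i1+n+3), r = rr g i, 3 r = g 2^i; choose y_i;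
U4 with z0.im <= 1: 1 + r_i <= L. C(I) = I * int exp(-t) q(-t) by U1. -/
def U_stmt : Prop := ∀ (g : ℝ), 0 < g → g ≤ 1/2 → ∀ (Q q : ℝ → ℂ) (i1 n : ℕ) (c' : ℝ), 0 < c' →
  Continuous Q → HasCompactSupport Q → Integrable q → IsFT Q q →
  (∀ i, i1 ≤ i → i < i1 + n → ∃ y ∈ Icc ((2:ℝ) ^ i) (2 ^ (i + 1)),
    ∀ s : ℝ, |s - y| < g * 2 ^ i → Q s = 0) →
  ‖∫ t in Ioi (0:ℝ), (Real.exp (-t) : ℂ) * q (-t)‖ ≤
    Real.exp (-(g ^ 2 / 700 * c' * n)) * (∫ t, ‖q t‖)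
      + Real.exp (c' * 2 ^ (i1 + n + 3)) * ∫ t in Icc (-c') c', ‖q t‖

end Pool.Agent.helper81.FS
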